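import Mathlib
import Pool.Agent.Q8.WF.Main1

/-!
# MP_8879ae_al, Q1: the factorisation statement for `U(W_{-1}) → A_k` is false (already for `k = 2`)

`W_{-1} = ℂ[t]∂` acts on the symmetric square of the line; in the coordinates `p = t₁ + t₂`,
`q = t₁ t₂` this gives a homomorphism `φ : U(W_{-1}) → A_2`,
`f∂ ↦ (f(t₁) + f(t₂)) ∂_p + (t₂ f(t₁) + t₁ f(t₂)) ∂_q`, which factors through no `Ψ_𝐧`.
-/

open scoped TensorProduct
open Q8.WF

namespace Pool.Agent.Results.MP_8879ae_al.NoFactorQ1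

/-- There is a `ℂ`-algebra homomorphism `φ : U(W_{-1}) → A_2` such that, for every `ℓ` and every
`𝐧 ∈ ℕ^ℓ`, there is no ring homomorphism `φ̄ : A_ℓ ⊗ U(𝔤_𝐧) → A_2` with `φ = φ̄ ∘ Ψ_𝐧`. -/
theorem result : ∃ φ : UniversalEnvelopingAlgebra ℂ W1 →ₐ[ℂ] Weyl 2,
    ∀ (ℓ : ℕ) (n : Fin ℓ → ℕ),
      ¬ ∃ φbar : AU n →+* Weyl 2,
        ∀ u : UniversalEnvelopingAlgebra ℂ W1, φ u = φbar (Psi n u) :=
  main1

end Pool.Agent.Results.MP_8879ae_al.NoFactorQ1
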