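import Mathlib
import Pool.Agent.Q8.WF.Main2

/-!
# MP_8879ae_al, Q2: the factorisation statement for `U(W) → Ã_k` is false (already for `k = 2`)

`W = ℂ[t,t⁻¹]∂` acts on the symmetric square of the punctured line; in the coordinates
`p = t₁ + t₂`, `q = t₁ t₂` this gives a homomorphism `φ : U(W) → Ã_2` which factors through no
`Ψ_𝐧`.
-/

open scoped TensorProduct
open Q8.WF

namespace Pool.Agent.Results.MP_8879ae_al.NoFactorQ2

/-- There is a `ℂ`-algebra homomorphism `φ : U(W) → Ã_2` such that, for every `ℓ` and every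
`𝐧 ∈ ℕ^ℓ`, there is no ring homomorphism `φ̄ : Ã_ℓ ⊗ U(𝔤_𝐧) → Ã_2` with `φ = φ̄ ∘ Ψ_𝐧`. -/
theorem result : ∃ φ : UniversalEnvelopingAlgebra ℂ WL →ₐ[ℂ] WeylL 2,
    ∀ (ℓ : ℕ) (n : Fin ℓ → ℕ),
      ¬ ∃ φbar : AUL n →+* WeylL 2,
        ∀ u : UniversalEnvelopingAlgebra ℂ WL, φ u = φbar (PsiL n u) :=
  main2

end Pool.Agent.Results.MP_8879ae_al.NoFactorQ2
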